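import Mathlib
import Pool.Agent.H.MP_7de521_nt.Main

set_option autoImplicit false

namespace Pool.Agent.Results.MP_7de521_nt.NotAlgebraic

open NumberField NumberField.mixedEmbedding

/-- closure of a subgroup of the rational points in the real points of the Weil restriction torus -/
noncomputable def realClosure (K : Type) [Field K] (L : Subgroup Kˣ) : Subgroup (mixedSpace K)ˣ :=
  (L.map (Units.map (mixedEmbedding K).toMonoidHom)).topologicalClosure

/-- identity component of a subgroup -/
def idComp {G : Type} [Group G] [TopologicalSpace G] [IsTopologicalGroup G] (C : Subgroup G) :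
    Subgroup G :=
  (Subgroup.connectedComponentOfOne C).map C.subtype

/-- subgroups of the unit group cut out by polynomial equations in linear coordinates -/
def IsRealAlgebraic (K : Type) [Field K] (B : Subgroup (mixedSpace K)ˣ) : Prop :=
  ∃ (ι : Type) (b : Module.Basis ι ℝ (mixedSpace K)) (S : Set (MvPolynomial ι ℝ)),
    ∀ y : (mixedSpace K)ˣ, y ∈ B ↔ ∀ P ∈ S, MvPolynomial.eval (fun i => b.repr y.val i) P = 0

theorem result : ∃ (K : Type) (_ : Field K) (_ : NumberField K) (L : Subgroup Kˣ), L.FG ∧
    ∀ B : Subgroup (mixedSpace K)ˣ, IsRealAlgebraic K B →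
      ¬ (idComp (realClosure K L) ≤ B ∧ ((idComp (realClosure K L)).subgroupOf B).FiniteIndex) := by
  refine ⟨Pool.Agent.H.MP_7de521_nt.KK, inferInstance, inferInstance,
    Pool.Agent.H.MP_7de521_nt.LL, Pool.Agent.H.MP_7de521_nt.LL_fg, ?_⟩
  rintro B ⟨ι, b, S, hB⟩
  exact Pool.Agent.H.MP_7de521_nt.main b S B hB

end Pool.Agent.Results.MP_7de521_nt.NotAlgebraic
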